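import Pool.Agent.Helper44.QA.CFGb

/-!
# Project QD part A, module CFG: the conformal map of the outside
-/

set_option autoImplicit false

open MeasureTheory Matrix Set Topology Filter
open scoped ENNReal ComplexConjugate ComplexOrder

namespace Pool.Agent.Helper44.QA

open Pool.Agent.Helper86.QA Pool.Agent.Helper20
open Pool.Agent.Helper35.PM (hs IsDiscrete limitSet)
open Pool.Agent.Helper20.QD (Fuch Good OutSide Lam inn out IsSU mob)
open CFG

/-- density of the hyperbolic area of the disc -/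
private noncomputable def dn (z : ℂ) : ℝ := 4 / (1 - ‖z‖ ^ 2) ^ 2

private theorem dn_meas : Measurable dn := by
  unfold dn
  fun_prop

private theorem dn_nn (z : ℂ) : 0 ≤ dn z := by
  unfold dn
  positivity

/-- hyperbolic area of the disc -/
private noncomputable def mu : Measure ℂ :=
  ((volume : Measure ℂ).restrict (Metric.ball 0 1)).withDensity (fun z => ENNReal.ofReal (dn z))

private theorem mu_sf : SigmaFinite mu := by
  unfold mu
  exact SigmaFinite.withDensity_of_ne_top' (fun x => ENNReal.ofReal_ne_top)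

private theorem mu_lint (f : ℂ → ℝ≥0∞) (hf : Measurable f) :
    ∫⁻ z, f z ∂mu = ∫⁻ z, (Metric.ball (0 : ℂ) 1).indicator (fun z => ENNReal.ofReal (dn z) * f z) z := by
  unfold mu
  rw [lintegral_withDensity_eq_lintegral_mul _ (dn_meas.ennreal_ofReal) hf,
    lintegral_indicator Metric.isOpen_ball.measurableSet]
  rfl

private theorem mu_set {S : Set ℂ} (hS : MeasurableSet S) (hS' : S ⊆ Metric.ball 0 1) :
    ∫⁻ _ in S, 1 ∂mu = ∫⁻ z in S, ENNReal.ofReal (dn z) := by
  rw [setLIntegral_one]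
  unfold mu
  rw [withDensity_apply _ hS, Measure.restrict_restrict hS, Set.inter_eq_self_of_subset_left hS']

private theorem mu_act (hCHV : StCHV) {Γ : Type} [Group Γ] (σ : Γ →* SL) (hsu : ∀ γ, IsSU (σ γ)) :
    ActOn (fun γ z => mb (σ γ) z) (Metric.ball 0 1) mu := by
  obtain ⟨c1, c2, -, c4, c5⟩ := hCHV
  have hin : ∀ (γ : Γ) (x : ℂ), x ∈ Metric.ball (0 : ℂ) 1 → mb (σ γ) x ∈ Metric.ball (0 : ℂ) 1 := by
    intro γ x hx
    rw [Metric.mem_ball, dist_zero_right] at hx ⊢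
    exact (su_iff (hsu γ) (su_den (hsu γ) hx)).2 hx
  refine ⟨Metric.isOpen_ball.measurableSet, ?_, hin, ?_, ?_, fun γ => c5 _, ?_⟩
  · unfold mu
    rw [withDensity_apply _ Metric.isOpen_ball.measurableSet.compl,
      Measure.restrict_restrict Metric.isOpen_ball.measurableSet.compl, Set.compl_inter_self,
      Measure.restrict_empty, lintegral_zero_measure]
  · intro x _
    show mb (σ 1) x = x
    rw [map_one]
    exact c4 x
  · intro γ δ x hx
    rw [Metric.mem_ball, dist_zero_right] at hx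
    show mb (σ (γ * δ)) x = _
    rw [map_mul]
    exact (c2 (σ γ) (σ δ) x (su_den (hsu δ) hx)).1
  · intro γ f hf
    have hA := hsu γ
    show ∫⁻ x, f (mb (σ γ) x) ∂mu = _
    rw [mu_lint (fun x => f (mb (σ γ) x)) (hf.comp (c5 (σ γ))), mu_lint f hf]
    have h1 : Measurable ((Metric.ball (0 : ℂ) 1).indicator (fun z => ENNReal.ofReal (dn z) * f z)) :=
      (dn_meas.ennreal_ofReal.mul hf).indicator Metric.isOpen_ball.measurableSet
    rw [← c1 (σ γ) _ h1]
    apply lintegral_congr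
    intro ξ
    by_cases hd : (σ γ) 1 0 * ξ + (σ γ) 1 1 = 0
    · have hξ : ξ ∉ Metric.ball (0 : ℂ) 1 := by
        intro h
        rw [Metric.mem_ball, dist_zero_right] at h
        exact su_den hA h hd
      rw [Set.indicator_of_notMem hξ, hd, norm_zero]
      simp
    · have hiff := su_iff hA hd
      by_cases hξ : ‖ξ‖ < 1
      · have m1 : ξ ∈ Metric.ball (0 : ℂ) 1 := by rwa [Metric.mem_ball, dist_zero_right]
        rw [Set.indicator_of_mem m1, Set.indicator_of_mem (hin γ ξ m1)]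
        have h2 : ENNReal.ofReal (dn ξ) = ENNReal.ofReal (dn (mb (σ γ) ξ)) *
            ENNReal.ofReal (1 / ‖(σ γ) 1 0 * ξ + (σ γ) 1 1‖ ^ 4) := by
          rw [← ENNReal.ofReal_mul (dn_nn _)]
          congr 1
          unfold dn
          rw [su_mb hA hd]
          have h3 : ‖(σ γ) 1 0 * ξ + (σ γ) 1 1‖ ≠ 0 := norm_ne_zero_iff.2 hd
          have h4 : 1 - ‖ξ‖ ^ 2 ≠ 0 := by
            have := norm_nonneg ξ
            nlinarith
          field_simp
        rw [h2]
        ring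
      · have m1 : ξ ∉ Metric.ball (0 : ℂ) 1 := by rwa [Metric.mem_ball, dist_zero_right]
        have m2 : mb (σ γ) ξ ∉ Metric.ball (0 : ℂ) 1 := by
          rw [Metric.mem_ball, dist_zero_right, hiff]
          exact hξ
        rw [Set.indicator_of_notMem m1, Set.indicator_of_notMem m2, zero_mul]

private theorem ctb {Γ : Type} [Group Γ] {ρ : Γ →* SL} (h : IsDiscrete ρ) : Countable Γ := by
  have h1 : (Set.univ : Set Γ) = ⋃ n : ℕ, {γ : Γ | hs (ρ γ) ≤ n} := by
    ext γ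
    simp only [Set.mem_univ, Set.mem_iUnion, true_iff]
    obtain ⟨n, hn⟩ := exists_nat_ge (hs (ρ γ))
    exact ⟨n, hn⟩
  have h2 : (Set.univ : Set Γ).Countable := by
    rw [h1]
    exact Set.countable_iUnion fun n => (h n).countable
  exact Set.countable_univ_iff.1 h2

theorem hCFG (hCHV : StCHV) (hSW1 : StSW1) (hRIJ : QD.StRIJ) (hLQC : QD.StLQC)
    (hTJ2 : QD.StTJ2) : StCFG := by
  have _ := hLQC
  have _ := hTJ2
  intro Γ _ ρ τ G p hgood hp hG
  have hsu := hG.fuch.su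
  obtain ⟨c1, c2, c3, c4, c5⟩ := id hCHV
  have hHd := HH_diff hp hG
  have hHi := HH_inj hp hG
  have hHm := HH_img (p := p) hG
  obtain ⟨hd0, hop, g, hgd, hgl⟩ := hRIJ (Metric.ball 0 1) (HH p G) Metric.isOpen_ball hHd hHi
  rw [hHm] at hop hgd
  -- the inverse
  have hgD : ∀ ξ ∈ sA ρ p, g ξ ∈ Metric.ball (0 : ℂ) 1 ∧ HH p G (g ξ) = ξ := by
    intro ξ hξ
    rw [← hHm] at hξ
    obtain ⟨u, hu, rfl⟩ := hξ
    rw [hgl u hu]
    exact ⟨hu, rfl⟩
  have hgi : InjOn g (sA ρ p) := by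
    intro ξ hξ η hη h
    rw [← (hgD ξ hξ).2, ← (hgD η hη).2, h]
  have hin : ∀ (γ : Γ) (x : ℂ), x ∈ Metric.ball (0 : ℂ) 1 → mb (cc τ γ) x ∈ Metric.ball (0 : ℂ) 1 := by
    intro γ x hx
    rw [Metric.mem_ball, dist_zero_right] at hx ⊢
    exact (su_iff (cc_su (hsu γ)) (su_den (cc_su (hsu γ)) hx)).2 hx
  have hCF : CF (QD.cj (gi p) ρ) (sA ρ p) (fun ξ => mb C0 (g ξ)) (QD.cj C0 (cc τ)) := by
    refine ⟨?_, ?_, ?_, ?_, ?_⟩
    · intro ξ hξ
      have h1 := (hgD ξ hξ).1
      rw [Metric.mem_ball, dist_zero_right] at h1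
      have h2 : DifferentiableAt ℂ (mb C0) (g ξ) := (c_deriv C0 _ (C0_den_ne h1)).differentiableAt
      exact DifferentiableAt.comp_differentiableWithinAt ξ h2 (hgd ξ hξ)
    · intro ξ hξ η hη h
      exact hgi hξ hη (C0_inj (hgD ξ hξ).1 (hgD η hη).1 h)
    · rw [← C0_img]
      ext w
      constructor
      · rintro ⟨ξ, hξ, rfl⟩
        exact ⟨g ξ, (hgD ξ hξ).1, rfl⟩
      · rintro ⟨u, hu, rfl⟩
        refine ⟨HH p G u, by rw [← hHm]; exact ⟨u, hu, rfl⟩, ?_⟩
        show mb C0 (g (HH p G u)) = _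
        rw [hgl u hu]
    · intro γ
      exact C0_real (cc_su (hsu γ))
    · intro γ ξ hξ
      obtain ⟨h1, h2⟩ := hgD ξ hξ
      have h1' := h1
      rw [Metric.mem_ball, dist_zero_right] at h1'
      have h3 := HH_eqv hp hG γ h1'
      rw [h2] at h3
      show mb C0 (g (mb (QD.cj (gi p) ρ γ) ξ)) = mb (QD.cj C0 (cc τ) γ) (mb C0 (g ξ))
      rw [← h3, hgl _ (hin γ _ h1), cj_apply]
      rw [← (c2 (C0 * cc τ γ * C0⁻¹) C0 (g ξ) (C0_den_ne h1')).1, inv_mul_cancel_right,
        (c2 C0 (cc τ γ) (g ξ) (su_den (cc_su (hsu γ)) h1')).1]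
  refine ⟨_, _, hCF, ?_⟩
  intro F0 DA hF0 hDA
  have hDAs := hDA.sub
  -- the fundamental domains in the disc
  have hctb : Countable Γ := ctb hgood.cc.discrete
  have hsf := mu_sf
  set D1 : Set ℂ := g '' DA with hD1
  have hD1m : MeasurableSet D1 :=
    hDA.mD.image_of_continuousOn_injOn (hgd.continuousOn.mono hDAs) (hgi.mono hDAs)
  have hD1b : D1 ⊆ Metric.ball 0 1 := by
    rintro _ ⟨ξ, hξ, rfl⟩
    exact (hgD ξ (hDAs hξ)).1
  have hD1i : ∀ u ∈ Metric.ball (0 : ℂ) 1, u ∈ D1 ↔ HH p G u ∈ DA := by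
    intro u hu
    constructor
    · rintro ⟨ξ, hξ, rfl⟩
      rw [(hgD ξ (hDAs hξ)).2]
      exact hξ
    · intro h
      exact ⟨_, h, hgl u hu⟩
  have hfd1 : FDOn (fun γ z => mb (cc τ γ) z) (Metric.ball 0 1) D1 := by
    refine ⟨hD1m, hD1b, ?_⟩
    intro u hu
    have hu' := hu
    rw [Metric.mem_ball, dist_zero_right] at hu'
    have h1 : HH p G u ∈ sA ρ p := by
      rw [← hHm]
      exact ⟨u, hu, rfl⟩
    refine (existsUnique_congr ?_).2 (hDA.ex _ h1)
    intro γ
    show mb (cc τ γ) u ∈ D1 ↔ mb (QD.cj (gi p) ρ γ) (HH p G u) ∈ DA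
    rw [hD1i _ (hin γ u hu), HH_eqv hp hG γ hu']
  have hcm : Measurable (fun z : ℂ => conj z) := Complex.continuous_conj.measurable
  have hfd2 : FDOn (fun γ z => mb (cc τ γ) z) (Metric.ball 0 1) ((fun z : ℂ => conj z) ⁻¹' F0) := by
    refine ⟨hcm hF0.mD, ?_, ?_⟩
    · intro z hz
      have h1 := hF0.sub hz
      rw [Metric.mem_ball, dist_zero_right] at h1 ⊢
      rwa [RCLike.norm_conj] at h1
    · intro u hu
      have hu2 : conj u ∈ Metric.ball (0 : ℂ) 1 := by
        rw [Metric.mem_ball, dist_zero_right] at hu ⊢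
        rwa [RCLike.norm_conj]
      refine (existsUnique_congr ?_).2 (hF0.ex _ hu2)
      intro γ
      show conj (mb (cc τ γ) u) ∈ F0 ↔ mb (τ γ) (conj u) ∈ F0
      rw [cc_mb]
  have hact := mu_act hCHV (cc τ) (fun γ => cc_su (hsu γ))
  have hsw := (hSW1 Γ ℂ (fun γ z => mb (cc τ γ) z) (Metric.ball 0 1) D1 mu (fun _ => 1) hact hfd1
    measurable_const (fun _ _ _ => rfl)).2 _ hfd2
  rw [mu_set hD1m hD1b, mu_set hfd2.mD hfd2.sub] at hsw
  have hconj : ∫⁻ z in (fun z : ℂ => conj z) ⁻¹' F0, ENNReal.ofReal (dn z) =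
      ∫⁻ z in F0, ENNReal.ofReal (dn z) := by
    have h1 : MeasurePreserving (fun z : ℂ => conj z) volume volume :=
      Complex.conjLIE.measurePreserving
    have h2 := h1.setLIntegral_comp_preimage hF0.mD dn_meas.ennreal_ofReal
    rw [← h2]
    apply lintegral_congr
    intro z
    unfold dn
    rw [RCLike.norm_conj]
  rw [hconj] at hsw
  -- change of variables
  have himg : HH p G '' D1 = DA := by
    ext ξ
    constructor
    · rintro ⟨u, hu, rfl⟩
      exact (hD1i u (hD1b hu)).1 hu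
    · intro hξ
      exact ⟨g ξ, ⟨ξ, hξ, rfl⟩, (hgD ξ (hDAs hξ)).2⟩
  have hHat : ∀ u ∈ Metric.ball (0 : ℂ) 1, HasDerivAt (HH p G) (deriv (HH p G) u) u := fun u hu =>
    ((hHd u hu).differentiableAt (Metric.isOpen_ball.mem_nhds hu)).hasDerivAt
  have hcv := lintegral_image_eq_lintegral_abs_det_fderiv_mul volume hD1m
    (fun x hx => ((hHat x (hD1b hx)).hasFDerivAt.restrictScalars ℝ).hasFDerivWithinAt)
    (hHi.mono hD1b) (fun ξ => ENNReal.ofReal (rX (fun ξ => mb C0 (g ξ)) ξ))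
  rw [himg] at hcv
  have hcv2 : ∫⁻ ξ in DA, ENNReal.ofReal (rX (fun ξ => mb C0 (g ξ)) ξ) =
      ∫⁻ u in D1, ENNReal.ofReal (dn u) := by
    rw [hcv]
    apply setLIntegral_congr_fun hD1m
    intro u hu
    have hub := hD1b hu
    have hun := hub
    rw [Metric.mem_ball, dist_zero_right] at hun
    have hHu : HH p G u ∈ sA ρ p := by
      rw [← hHm]
      exact ⟨u, hub, rfl⟩
    have hdet : (ContinuousLinearMap.restrictScalars ℝ
        (ContinuousLinearMap.toSpanSingleton ℂ (deriv (HH p G) u) : ℂ →L[ℂ] ℂ)).det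
        = ‖deriv (HH p G) u‖ ^ 2 := c_det2 _
    -- chain rule
    have hF1 : HasDerivAt (fun ξ => mb C0 (g ξ)) (deriv (fun ξ => mb C0 (g ξ)) (HH p G u)) (HH p G u) :=
      ((hCF.dif _ hHu).differentiableAt (hop.mem_nhds hHu)).hasDerivAt
    have hF2 := hF1.comp u (hHat u hub)
    have hF3 : HasDerivAt (mb C0) (deriv (fun ξ => mb C0 (g ξ)) (HH p G u) * deriv (HH p G) u) u := by
      refine hF2.congr_of_eventuallyEq ?_
      filter_upwards [Metric.isOpen_ball.mem_nhds hub] with v hv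
      show mb C0 v = mb C0 (g (HH p G v))
      rw [hgl v hv]
    have hF4 := hF3.unique (c_deriv C0 u (C0_den_ne hun))
    have hval : |(ContinuousLinearMap.restrictScalars ℝ
        (ContinuousLinearMap.toSpanSingleton ℂ (deriv (HH p G) u) : ℂ →L[ℂ] ℂ)).det| *
        rX (fun ξ => mb C0 (g ξ)) (HH p G u) = dn u := by
      rw [hdet, abs_of_nonneg (by positivity)]
      unfold rX
      have e1 : (mb C0 (g (HH p G u))).im = (1 - ‖u‖ ^ 2) / ‖1 - u‖ ^ 2 := by
        rw [hgl u hub, C0_im hun]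
      have e2 : ‖deriv (HH p G) u‖ ^ 2 * ‖deriv (fun ξ => mb C0 (g ξ)) (HH p G u)‖ ^ 2 =
          4 / ‖1 - u‖ ^ 4 := by
        rw [← mul_pow, mul_comm ‖deriv (HH p G) u‖, ← norm_mul, hF4, C0_den]
        have e3 : ‖(1 + Complex.I : ℂ)‖ ^ 2 = 2 := by
          rw [Complex.sq_norm, Complex.normSq_apply]
          norm_num
        rw [norm_div, norm_one, norm_pow, norm_div, div_pow ‖1 - u‖, e3]
        have e4 : ‖1 - u‖ ≠ 0 := norm_ne_zero_iff.2 (one_sub_ne hun)
        field_simp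
        norm_num
      show ‖deriv (HH p G) u‖ ^ 2 * (‖deriv (fun ξ => mb C0 (g ξ)) (HH p G u)‖ ^ 2 /
        (mb C0 (g (HH p G u))).im ^ 2) = dn u
      rw [← mul_div_assoc, e2, e1]
      unfold dn
      have e4 : ‖1 - u‖ ≠ 0 := norm_ne_zero_iff.2 (one_sub_ne hun)
      have e5 : 1 - ‖u‖ ^ 2 ≠ 0 := by
        have := norm_nonneg u
        nlinarith
      field_simp
    show ENNReal.ofReal |_| * ENNReal.ofReal _ = _
    rw [← ENNReal.ofReal_mul (abs_nonneg _)]
    exact congrArg ENNReal.ofReal hval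
  -- Bochner integrals
  have hcd : ContinuousOn (rX (fun ξ => mb C0 (g ξ))) (sA ρ p) := by
    unfold rX
    have h1 : ContinuousOn (deriv (fun ξ => mb C0 (g ξ))) (sA ρ p) :=
      (hCF.dif.deriv hop).continuousOn
    have h2 : ContinuousOn (fun ξ => mb C0 (g ξ)) (sA ρ p) := hCF.dif.continuousOn
    refine (h1.norm.pow 2).div ((Complex.continuous_im.comp_continuousOn h2).pow 2) ?_
    intro ξ hξ
    have h3 : mb C0 (g ξ) ∈ HP := by
      rw [← hCF.img]
      exact ⟨ξ, hξ, rfl⟩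
    have h4 : 0 < (mb C0 (g ξ)).im := h3
    exact pow_ne_zero 2 h4.ne'
  have hI1 : ∫ ξ in DA, rX (fun ξ => mb C0 (g ξ)) ξ =
      (∫⁻ ξ in DA, ENNReal.ofReal (rX (fun ξ => mb C0 (g ξ)) ξ)).toReal := by
    rw [integral_eq_lintegral_of_nonneg_ae]
    · exact Filter.Eventually.of_forall fun ξ => by
        show 0 ≤ rX _ ξ
        unfold rX
        positivity
    · exact (hcd.mono hDAs).aestronglyMeasurable hDA.mD
  have hI2 : ar2 F0 = (∫⁻ z in F0, ENNReal.ofReal (dn z)).toReal := by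
    unfold ar2
    have h1 : (fun z : ℂ => 4 / (1 - ‖z‖ ^ 2) ^ 2) = dn := rfl
    rw [h1, integral_eq_lintegral_of_nonneg_ae]
    · exact Filter.Eventually.of_forall fun z => dn_nn z
    · exact dn_meas.aestronglyMeasurable
  rw [hI1, hI2, hcv2, hsw]

end Pool.Agent.Helper44.QA
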