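import Pool.Agent.Helper86.QA.St4

/-!
# Project QD part A, module CFG, part 1: matrices, the map `H`
-/

set_option autoImplicit false

open MeasureTheory Matrix Set Topology Filter
open scoped ENNReal ComplexConjugate ComplexOrder

namespace Pool.Agent.Helper44.QA.CFG

open Pool.Agent.Helper86.QA Pool.Agent.Helper20
open Pool.Agent.Helper35.PM (hs IsDiscrete limitSet)
open Pool.Agent.Helper20.QD (Fuch Good OutSide Lam inn out IsSU mob)

theorem c_det (g : SL) : g 0 0 * g 1 1 - g 0 1 * g 1 0 = 1 := by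
  have h := g.2
  rw [Matrix.det_fin_two] at h
  exact h

theorem c_mul (g h : SL) (i j : Fin 2) :
    (g * h) i j = g i 0 * h 0 j + g i 1 * h 1 j := by
  rw [Matrix.SpecialLinearGroup.coe_mul, Matrix.mul_apply, Fin.sum_univ_two]

theorem c_inv (g : SL) : (g⁻¹) 0 0 = g 1 1 ∧ (g⁻¹) 0 1 = - g 0 1 ∧ (g⁻¹) 1 0 = - g 1 0 ∧
    (g⁻¹) 1 1 = g 0 0 := by
  rw [Matrix.SpecialLinearGroup.coe_inv, Matrix.adjugate_fin_two]
  simp

theorem gi_entries (p : ℂ) : (gi p) 0 0 = 0 ∧ (gi p) 0 1 = -1 ∧ (gi p) 1 0 = 1 ∧ (gi p) 1 1 = -p := by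
  refine ⟨rfl, rfl, rfl, rfl⟩

theorem cj_entries (p : ℂ) (B : SL) :
    (gi p * B * (gi p)⁻¹) 0 0 = B 1 0 * p + B 1 1 ∧ (gi p * B * (gi p)⁻¹) 0 1 = - B 1 0 ∧
    (gi p * B * (gi p)⁻¹) 1 0 = -p * B 0 0 + p ^ 2 * B 1 0 - B 0 1 + p * B 1 1 ∧
    (gi p * B * (gi p)⁻¹) 1 1 = B 0 0 - p * B 1 0 := by
  obtain ⟨i1, i2, i3, i4⟩ := c_inv (gi p)
  obtain ⟨g1, g2, g3, g4⟩ := gi_entries p
  refine ⟨?_, ?_, ?_, ?_⟩
  · rw [c_mul, c_mul, c_mul, i1, i3, g1, g2, g4, g3]; ring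
  · rw [c_mul, c_mul, c_mul, i2, i4, g1, g2]; ring
  · rw [c_mul, c_mul, c_mul, i1, i3, g3, g4]; ring
  · rw [c_mul, c_mul, c_mul, i2, i4, g1, g2, g3, g4]; ring

theorem c_deriv (g : SL) (ξ : ℂ) (h : g 1 0 * ξ + g 1 1 ≠ 0) :
    HasDerivAt (mb g) (1 / (g 1 0 * ξ + g 1 1) ^ 2) ξ := by
  have hd := c_det g
  have h1 : HasDerivAt (fun ξ : ℂ => g 0 0 * ξ + g 0 1) (g 0 0) ξ := by
    simpa using ((hasDerivAt_id ξ).const_mul (g 0 0)).add_const (g 0 1)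
  have h2 : HasDerivAt (fun ξ : ℂ => g 1 0 * ξ + g 1 1) (g 1 0) ξ := by
    simpa using ((hasDerivAt_id ξ).const_mul (g 1 0)).add_const (g 1 1)
  have h3 := h1.div h2 h
  have h4 : (g 0 0 * (g 1 0 * ξ + g 1 1) - (g 0 0 * ξ + g 0 1) * g 1 0) /
      (g 1 0 * ξ + g 1 1) ^ 2 = 1 / (g 1 0 * ξ + g 1 1) ^ 2 := by
    congr 1
    linear_combination hd
  rw [h4] at h3
  exact h3

theorem c_det2 (w : ℂ) :
    ((ContinuousLinearMap.toSpanSingleton ℂ w).restrictScalars ℝ : ℂ →L[ℝ] ℂ).det = ‖w‖ ^ 2 := by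
  simp [ContinuousLinearMap.det, LinearMap.det_restrictScalars,
      Algebra.norm_complex_eq, Complex.normSq_eq_norm_sq]

/-! ### `SU(1,1)` -/

/-- the entries of a matrix in `SU(1,1)` satisfy `|a|² - |b|² = 1` -/
theorem su_ab {A : SL} (hA : IsSU A) :
    (A 0 0).re ^ 2 + (A 0 0).im ^ 2 - (A 0 1).re ^ 2 - (A 0 1).im ^ 2 = 1 := by
  obtain ⟨h1, h2⟩ := hA
  have h3 := c_det A
  have h1' : A 1 1 = conj (A 0 0) := h1
  have h2' : A 1 0 = conj (A 0 1) := h2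
  rw [h1', h2'] at h3
  have h4 := congrArg Complex.re h3
  simp only [Complex.sub_re, Complex.mul_re, Complex.conj_re, Complex.conj_im, Complex.one_re] at h4
  linarith

theorem su_id {A : SL} (hA : IsSU A) (z : ℂ) :
    ‖A 1 0 * z + A 1 1‖ ^ 2 - ‖A 0 0 * z + A 0 1‖ ^ 2 = 1 - ‖z‖ ^ 2 := by
  have h0 := su_ab hA
  obtain ⟨h1, h2⟩ := hA
  have h1' : A 1 1 = conj (A 0 0) := h1
  have h2' : A 1 0 = conj (A 0 1) := h2
  rw [h1', h2', Complex.sq_norm, Complex.sq_norm, Complex.sq_norm, Complex.normSq_apply,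
    Complex.normSq_apply, Complex.normSq_apply]
  simp only [Complex.add_re, Complex.add_im, Complex.mul_re, Complex.mul_im, Complex.conj_re,
    Complex.conj_im]
  linear_combination (1 - z.re ^ 2 - z.im ^ 2) * h0

theorem su_den {A : SL} (hA : IsSU A) {z : ℂ} (hz : ‖z‖ < 1) : A 1 0 * z + A 1 1 ≠ 0 := by
  intro h
  have h1 := su_id hA z
  rw [h, norm_zero] at h1
  have h2 : ‖z‖ ^ 2 < 1 := by nlinarith [norm_nonneg z]
  nlinarith [sq_nonneg ‖A 0 0 * z + A 0 1‖]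

theorem su_mb {A : SL} (hA : IsSU A) {z : ℂ} (hd : A 1 0 * z + A 1 1 ≠ 0) :
    1 - ‖mb A z‖ ^ 2 = (1 - ‖z‖ ^ 2) / ‖A 1 0 * z + A 1 1‖ ^ 2 := by
  have h1 := su_id hA z
  have h2 : ‖A 1 0 * z + A 1 1‖ ^ 2 ≠ 0 := by
    rw [pow_ne_zero_iff two_ne_zero]
    exact norm_ne_zero_iff.2 hd
  have h3 : ‖mb A z‖ ^ 2 = ‖A 0 0 * z + A 0 1‖ ^ 2 / ‖A 1 0 * z + A 1 1‖ ^ 2 := by
    unfold mb
    rw [norm_div, div_pow]
  rw [h3, eq_div_iff h2, sub_mul, one_mul, div_mul_cancel₀ _ h2]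
  exact h1

theorem su_iff {A : SL} (hA : IsSU A) {z : ℂ} (hd : A 1 0 * z + A 1 1 ≠ 0) :
    ‖mb A z‖ < 1 ↔ ‖z‖ < 1 := by
  have h1 := su_mb hA hd
  have h2 : 0 < ‖A 1 0 * z + A 1 1‖ ^ 2 := by
    have := norm_pos_iff.2 hd
    positivity
  constructor
  · intro h
    have h3 : 0 < 1 - ‖mb A z‖ ^ 2 := by nlinarith [norm_nonneg (mb A z)]
    rw [h1] at h3
    have h4 : 0 < 1 - ‖z‖ ^ 2 := by
      by_contra hc
      push Not at hc
      have := div_nonpos_of_nonpos_of_nonneg hc h2.le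
      linarith
    by_contra hc
    push Not at hc
    nlinarith [norm_nonneg z]
  · intro h
    have h4 : 0 < 1 - ‖z‖ ^ 2 := by nlinarith [norm_nonneg z]
    have h3 : 0 < 1 - ‖mb A z‖ ^ 2 := by
      rw [h1]
      exact div_pos h4 h2
    by_contra hc
    push Not at hc
    nlinarith [norm_nonneg (mb A z)]

/-! ### entrywise conjugation -/

/-- entrywise conjugation -/
noncomputable def cc {Γ : Type} [Group Γ] (τ : Γ →* SL) : Γ →* SL :=
  (Matrix.SpecialLinearGroup.map (starRingEnd ℂ)).comp τ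

theorem cc_apply {Γ : Type} [Group Γ] (τ : Γ →* SL) (γ : Γ) (i j : Fin 2) :
    (cc τ γ) i j = conj (τ γ i j) := rfl

theorem cc_su {Γ : Type} [Group Γ] {τ : Γ →* SL} {γ : Γ} (h : IsSU (τ γ)) : IsSU (cc τ γ) := by
  obtain ⟨h1, h2⟩ := h
  have h1' : τ γ 1 1 = conj (τ γ 0 0) := h1
  have h2' : τ γ 1 0 = conj (τ γ 0 1) := h2
  constructor
  · show (cc τ γ) 1 1 = conj ((cc τ γ) 0 0)
    rw [cc_apply, cc_apply, h1']
  · show (cc τ γ) 1 0 = conj ((cc τ γ) 0 1)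
    rw [cc_apply, cc_apply, h2']

theorem cc_mb {Γ : Type} [Group Γ] (τ : Γ →* SL) (γ : Γ) (z : ℂ) :
    conj (mb (cc τ γ) z) = mb (τ γ) (conj z) := by
  unfold mb
  rw [cc_apply, cc_apply, cc_apply, cc_apply]
  simp only [map_div₀, map_add, map_mul, Complex.conj_conj]

/-! ### the map `H` -/

open Classical in
/-- the conformal map of the disc onto `sA` -/
noncomputable def HH (p : ℂ) (G : ℂ → ℂ) (u : ℂ) : ℂ := if u = 0 then 0 else mi p (G u⁻¹)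

section

variable {Γ : Type} [Group Γ] {ρ τ : Γ →* SL} {G : ℂ → ℂ} {p : ℂ}

theorem inv_norm {u : ℂ} (h0 : u ≠ 0) (h1 : ‖u‖ < 1) : 1 < ‖u⁻¹‖ := by
  rw [norm_inv]
  exact (one_lt_inv₀ (norm_pos_iff.2 h0)).2 h1

theorem G_ne (hp : p ∈ Lam ρ) (hG : OutSide ρ τ G) {z : ℂ} (hz : 1 < ‖z‖) : G z ≠ p := by
  intro h
  have h1 : G z ∈ out (Lam ρ) := hG.bij.mapsTo hz
  rw [h] at h1
  exact h1.1 hp

theorem HH_zero : HH p G 0 = 0 := by simp [HH]

theorem HH_ne {u : ℂ} (h : u ≠ 0) : HH p G u = mi p (G u⁻¹) := by simp [HH, h]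

theorem mi_ne {x : ℂ} (h : x ≠ p) : mi p x ≠ 0 := by
  unfold mi
  exact div_ne_zero (by norm_num) (sub_ne_zero.2 h)

theorem mi_inj {x y : ℂ} (hx : x ≠ p) (hy : y ≠ p) (h : mi p x = mi p y) : x = y := by
  unfold mi at h
  rw [div_eq_div_iff (sub_ne_zero.2 hx) (sub_ne_zero.2 hy)] at h
  linear_combination h

theorem HH_inj (hp : p ∈ Lam ρ) (hG : OutSide ρ τ G) : InjOn (HH p G) (Metric.ball 0 1) := by
  intro u hu v hv h
  rw [Metric.mem_ball, dist_zero_right] at hu hv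
  by_cases hu0 : u = 0
  · by_cases hv0 : v = 0
    · rw [hu0, hv0]
    · exfalso
      rw [hu0, HH_zero, HH_ne hv0] at h
      exact mi_ne (G_ne hp hG (inv_norm hv0 hv)) h.symm
  · by_cases hv0 : v = 0
    · exfalso
      rw [hv0, HH_zero, HH_ne hu0] at h
      exact mi_ne (G_ne hp hG (inv_norm hu0 hu)) h
    · rw [HH_ne hu0, HH_ne hv0] at h
      have h1 := mi_inj (G_ne hp hG (inv_norm hu0 hu)) (G_ne hp hG (inv_norm hv0 hv)) h
      have h2 := hG.bij.injOn (inv_norm hu0 hu) (inv_norm hv0 hv) h1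
      exact inv_injective h2

theorem HH_img (hG : OutSide ρ τ G) : HH p G '' (Metric.ball 0 1) = sA ρ p := by
  ext ξ
  constructor
  · rintro ⟨u, hu, rfl⟩
    rw [Metric.mem_ball, dist_zero_right] at hu
    by_cases hu0 : u = 0
    · rw [hu0, HH_zero]
      exact Set.mem_insert _ _
    · rw [HH_ne hu0]
      exact Set.mem_insert_of_mem _ ⟨_, hG.bij.mapsTo (inv_norm hu0 hu), rfl⟩
  · intro h
    rcases h with h | ⟨x, hx, rfl⟩
    · exact ⟨0, Metric.mem_ball_self one_pos, by rw [HH_zero, h]⟩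
    · obtain ⟨z, hz, rfl⟩ := hG.bij.surjOn hx
      have hz' : 1 < ‖z‖ := hz
      have hz0 : z ≠ 0 := by
        rintro rfl
        rw [norm_zero] at hz'
        linarith
      refine ⟨z⁻¹, ?_, ?_⟩
      · rw [Metric.mem_ball, dist_zero_right, norm_inv]
        exact inv_lt_one_of_one_lt₀ hz'
      · rw [HH_ne (inv_ne_zero hz0), inv_inv]

theorem out_open : IsOpen {z : ℂ | 1 < ‖z‖} := isOpen_lt continuous_const continuous_norm

theorem HH_cont0 (hp : p ∈ Lam ρ) (hG : OutSide ρ τ G) : ContinuousAt (HH p G) 0 := by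
  rw [continuousAt_iff_punctured_nhds, HH_zero]
  obtain ⟨a, c, ha, hac⟩ := hG.asy
  have h1 : Tendsto (fun u : ℂ => u⁻¹) (𝓝[≠] 0) (Bornology.cobounded ℂ) :=
    tendsto_inv₀_nhdsNE_zero
  have h2 := hac.comp h1
  have h3 : Tendsto (fun u : ℂ => u) (𝓝[≠] 0) (𝓝 0) := tendsto_nhdsWithin_of_tendsto_nhds tendsto_id
  have h4 : Tendsto (fun u : ℂ => u * (G u⁻¹ - a * u⁻¹ - c) + a + u * (c - p)) (𝓝[≠] 0)
      (𝓝 (0 * 0 + a + 0 * (c - p))) :=
    ((h3.mul h2).add_const a).add (h3.mul_const (c - p))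
  have h5 : Tendsto (fun u : ℂ => -u / (u * (G u⁻¹ - a * u⁻¹ - c) + a + u * (c - p))) (𝓝[≠] 0)
      (𝓝 (-0 / (0 * 0 + a + 0 * (c - p)))) :=
    h3.neg.div h4 (by simpa using ha)
  have h6 : (-0 / (0 * 0 + a + 0 * (c - p)) : ℂ) = 0 := by simp
  rw [h6] at h5
  refine h5.congr' ?_
  have h7 : ∀ᶠ u : ℂ in 𝓝[≠] 0, u ∈ Metric.ball (0 : ℂ) 1 :=
    mem_nhdsWithin_of_mem_nhds (Metric.ball_mem_nhds _ one_pos)
  filter_upwards [h7, self_mem_nhdsWithin] with u hu hu0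
  have hu0' : u ≠ 0 := hu0
  rw [Metric.mem_ball, dist_zero_right] at hu
  have h8 := sub_ne_zero.2 (G_ne hp hG (inv_norm hu0' hu))
  have h9 : u * (G u⁻¹ - a * u⁻¹ - c) + a + u * (c - p) = u * (G u⁻¹ - p) := by
    field_simp
    ring
  rw [HH_ne hu0', h9]
  unfold mi
  rw [neg_div, neg_div, ← div_div, div_self hu0']

theorem HH_diff (hp : p ∈ Lam ρ) (hG : OutSide ρ τ G) :
    DifferentiableOn ℂ (HH p G) (Metric.ball 0 1) := by
  refine (Complex.differentiableOn_compl_singleton_and_continuousAt_iff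
    (Metric.ball_mem_nhds (0 : ℂ) one_pos)).1 ⟨?_, HH_cont0 hp hG⟩
  have h1 : DifferentiableOn ℂ (fun u : ℂ => mi p (G u⁻¹)) (Metric.ball 0 1 \ {0}) := by
    intro u hu
    have hu1 : ‖u‖ < 1 := by
      have := hu.1
      rwa [Metric.mem_ball, dist_zero_right] at this
    have hu0 : u ≠ 0 := hu.2
    have hz := inv_norm hu0 hu1
    have hGd : DifferentiableAt ℂ G u⁻¹ := (hG.hol u⁻¹ hz).differentiableAt (out_open.mem_nhds hz)
    have h2 : DifferentiableAt ℂ (fun u : ℂ => G u⁻¹) u :=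
      DifferentiableAt.comp u hGd (differentiableAt_inv hu0)
    have h3 : DifferentiableAt ℂ (fun u : ℂ => -1 / (G u⁻¹ - p)) u :=
      (differentiableAt_const _).div (h2.sub_const p) (sub_ne_zero.2 (G_ne hp hG hz))
    exact h3.differentiableWithinAt
  refine h1.congr ?_
  intro u hu
  exact HH_ne hu.2

end

end Pool.Agent.Helper44.QA.CFG
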