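import Pool.Agent.Helper44.QA.CFGa

/-!
# Project QD part A, module CFG, part 2: equivariance, Cayley transformation
-/

set_option autoImplicit false

open MeasureTheory Matrix Set Topology Filter
open scoped ENNReal ComplexConjugate ComplexOrder

namespace Pool.Agent.Helper44.QA.CFG

open Pool.Agent.Helper86.QA Pool.Agent.Helper20
open Pool.Agent.Helper35.PM (hs IsDiscrete limitSet)
open Pool.Agent.Helper20.QD (Fuch Good OutSide Lam inn out IsSU mob)

section

variable {Γ : Type} [Group Γ] {ρ τ : Γ →* SL} {G : ℂ → ℂ} {p : ℂ}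

theorem cj_apply (B : SL) (ρ : Γ →* SL) (γ : Γ) : QD.cj B ρ γ = B * ρ γ * B⁻¹ := rfl

/-- relation between the entrywise conjugate of `τ γ` and `τ γ` at the inverse point -/
theorem cc_inv (hsu : ∀ γ, IsSU (τ γ)) (γ : Γ) {u : ℂ} (hu : u ≠ 0) :
    (cc τ γ) 0 0 * u + (cc τ γ) 0 1 = u * (τ γ 1 0 * u⁻¹ + τ γ 1 1) ∧
    (cc τ γ) 1 0 * u + (cc τ γ) 1 1 = u * (τ γ 0 0 * u⁻¹ + τ γ 0 1) := by
  obtain ⟨h1, h2⟩ := hsu γ
  have h1' : τ γ 1 1 = conj (τ γ 0 0) := h1
  have h2' : τ γ 1 0 = conj (τ γ 0 1) := h2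
  rw [cc_apply, cc_apply, cc_apply, cc_apply, h1', h2', Complex.conj_conj, Complex.conj_conj]
  constructor
  · field_simp
    ring
  · field_simp
    ring

/-- the identity behind the equivariance, away from `0` -/
theorem HH_eq1 (hp : p ∈ Lam ρ) (hG : OutSide ρ τ G) (γ : Γ) {u : ℂ} (hu : ‖u‖ < 1) (hu0 : u ≠ 0) :
    HH p G (mb (cc τ γ) u) * ((QD.cj (gi p) ρ γ) 1 0 * HH p G u + (QD.cj (gi p) ρ γ) 1 1) =
      (QD.cj (gi p) ρ γ) 0 0 * HH p G u + (QD.cj (gi p) ρ γ) 0 1 := by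
  have hsu := hG.fuch.su
  have hz := inv_norm hu0 hu
  obtain ⟨e1, e2, e3, e4⟩ := cj_entries p (ρ γ)
  rw [cj_apply, e1, e2, e3, e4, HH_ne hu0]
  obtain ⟨n1, n2⟩ := cc_inv hsu γ hu0
  obtain ⟨q1, q2⟩ := hG.eqv γ u⁻¹ hz.le
  have hdu : (cc τ γ) 1 0 * u + (cc τ γ) 1 1 ≠ 0 := su_den (cc_su (hsu γ)) hu
  have hx := G_ne hp hG hz
  have hx' := sub_ne_zero.2 hx
  by_cases hd : τ γ 1 0 * u⁻¹ + τ γ 1 1 = 0
  · -- the image is infinity
    have hd2 : ρ γ 1 0 * G u⁻¹ + ρ γ 1 1 = 0 := q1.1 hd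
    have h3 : mb (cc τ γ) u = 0 := by
      unfold mb
      rw [n1, hd, mul_zero, zero_div]
    rw [h3, HH_zero, zero_mul]
    unfold mi
    clear q1 q2 hz h3 hd
    generalize G u⁻¹ = x at *
    field_simp
    linear_combination hd2
  · have hd2 : ρ γ 1 0 * G u⁻¹ + ρ γ 1 1 ≠ 0 := fun h => hd (q1.2 h)
    obtain ⟨-, q3⟩ := q2 hd
    have hnum : τ γ 0 0 * u⁻¹ + τ γ 0 1 ≠ 0 := by
      intro h
      rw [n2, h, mul_zero] at hdu
      exact hdu rfl
    have h4 : mb (cc τ γ) u = (mb (τ γ) u⁻¹)⁻¹ := by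
      unfold mb
      rw [n1, n2, inv_div, mul_div_mul_left _ _ hu0]
    have h5 : mb (cc τ γ) u ≠ 0 := by
      unfold mb
      rw [n1]
      exact div_ne_zero (mul_ne_zero hu0 hd) hdu
    have h6 : ‖mb (cc τ γ) u‖ < 1 := (su_iff (cc_su (hsu γ)) hdu).2 hu
    have h7 := inv_norm h5 h6
    have h8 : (mb (cc τ γ) u)⁻¹ = mb (τ γ) u⁻¹ := by rw [h4, inv_inv]
    rw [HH_ne h5, h8]
    rw [h8] at h7
    have q3' : G (mb (τ γ) u⁻¹) = (ρ γ 0 0 * G u⁻¹ + ρ γ 0 1) / (ρ γ 1 0 * G u⁻¹ + ρ γ 1 1) := q3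
    have h9 := G_ne hp hG h7
    have h10 := sub_ne_zero.2 h9
    set y := G (mb (τ γ) u⁻¹) with hy
    have h11 : y * (ρ γ 1 0 * G u⁻¹ + ρ γ 1 1) = ρ γ 0 0 * G u⁻¹ + ρ γ 0 1 := by
      rw [q3', div_mul_cancel₀ _ hd2]
    unfold mi
    clear q1 q2 q3 q3' h7 hz h4 h5 h6 h8 hd hnum
    clear_value y
    clear hy
    generalize G u⁻¹ = x at *
    field_simp
    linear_combination h11

theorem mb_contAt (g : SL) {ξ : ℂ} (h : g 1 0 * ξ + g 1 1 ≠ 0) : ContinuousAt (mb g) ξ :=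
  (c_deriv g ξ h).continuousAt

theorem HH_eq2 (hp : p ∈ Lam ρ) (hG : OutSide ρ τ G) (γ : Γ) {u : ℂ} (hu : ‖u‖ < 1) :
    HH p G (mb (cc τ γ) u) * ((QD.cj (gi p) ρ γ) 1 0 * HH p G u + (QD.cj (gi p) ρ γ) 1 1) =
      (QD.cj (gi p) ρ γ) 0 0 * HH p G u + (QD.cj (gi p) ρ γ) 0 1 := by
  by_cases hu0 : u = 0
  · subst hu0
    have hsu := hG.fuch.su
    have hdu : (cc τ γ) 1 0 * (0 : ℂ) + (cc τ γ) 1 1 ≠ 0 := su_den (cc_su (hsu γ)) hu
    have h6 : ‖mb (cc τ γ) 0‖ < 1 := (su_iff (cc_su (hsu γ)) hdu).2 hu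
    have h7 : ContinuousAt (HH p G) (mb (cc τ γ) 0) :=
      ((HH_diff hp hG).continuousOn).continuousAt
        (Metric.isOpen_ball.mem_nhds (by rw [Metric.mem_ball, dist_zero_right]; exact h6))
    have h8 : ContinuousAt (fun u => HH p G (mb (cc τ γ) u)) 0 :=
      ContinuousAt.comp (f := mb (cc τ γ)) h7 (mb_contAt _ hdu)
    have h9 := HH_cont0 hp hG
    have h10 : ContinuousAt (fun u => HH p G (mb (cc τ γ) u) *
        ((QD.cj (gi p) ρ γ) 1 0 * HH p G u + (QD.cj (gi p) ρ γ) 1 1)) 0 :=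
      h8.mul ((continuousAt_const.mul h9).add continuousAt_const)
    have h11 : ContinuousAt (fun u => (QD.cj (gi p) ρ γ) 0 0 * HH p G u + (QD.cj (gi p) ρ γ) 0 1) 0 :=
      (continuousAt_const.mul h9).add continuousAt_const
    have h12 := h10.tendsto.mono_left (nhdsWithin_le_nhds (s := {(0 : ℂ)}ᶜ))
    have h13 := h11.tendsto.mono_left (nhdsWithin_le_nhds (s := {(0 : ℂ)}ᶜ))
    refine tendsto_nhds_unique_of_eventuallyEq h12 h13 ?_
    have h14 : ∀ᶠ u : ℂ in 𝓝[≠] 0, u ∈ Metric.ball (0 : ℂ) 1 :=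
      mem_nhdsWithin_of_mem_nhds (Metric.ball_mem_nhds _ one_pos)
    filter_upwards [h14, self_mem_nhdsWithin] with v hv hv0
    rw [Metric.mem_ball, dist_zero_right] at hv
    exact HH_eq1 hp hG γ hv hv0
  · exact HH_eq1 hp hG γ hu hu0

/-- equivariance of `HH` -/
theorem HH_eqv (hp : p ∈ Lam ρ) (hG : OutSide ρ τ G) (γ : Γ) {u : ℂ} (hu : ‖u‖ < 1) :
    HH p G (mb (cc τ γ) u) = mb (QD.cj (gi p) ρ γ) (HH p G u) := by
  have h1 := HH_eq2 hp hG γ hu
  have hd := c_det (QD.cj (gi p) ρ γ)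
  have h2 : (QD.cj (gi p) ρ γ) 1 0 * HH p G u + (QD.cj (gi p) ρ γ) 1 1 ≠ 0 := by
    intro h
    rw [h, mul_zero] at h1
    have h3 : (1 : ℂ) = 0 := by
      rw [← hd]
      linear_combination (QD.cj (gi p) ρ γ) 0 0 * h + (QD.cj (gi p) ρ γ) 1 0 * h1
    exact one_ne_zero h3
  show _ = _ / _
  rw [eq_div_iff h2]
  exact h1

end

/-! ### Cayley transformation -/

theorem one_I_ne : (1 + Complex.I) ≠ 0 := by
  intro h
  have := congrArg Complex.re h
  simp at this

theorem one_I_sq : (1 + Complex.I) ^ 2 = 2 * Complex.I := by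
  linear_combination Complex.I_sq

/-- the Cayley matrix -/
noncomputable def C0 : SL :=
  ⟨!![Complex.I / (1 + Complex.I), Complex.I / (1 + Complex.I);
      -1 / (1 + Complex.I), 1 / (1 + Complex.I)], by
    have h := one_I_ne
    rw [Matrix.det_fin_two_of]
    field_simp
    linear_combination -one_I_sq⟩

theorem C0_e : C0 0 0 = Complex.I / (1 + Complex.I) ∧ C0 0 1 = Complex.I / (1 + Complex.I) ∧
    C0 1 0 = -1 / (1 + Complex.I) ∧ C0 1 1 = 1 / (1 + Complex.I) := ⟨rfl, rfl, rfl, rfl⟩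

theorem C0_den (u : ℂ) : C0 1 0 * u + C0 1 1 = (1 - u) / (1 + Complex.I) := by
  obtain ⟨-, -, h3, h4⟩ := C0_e
  rw [h3, h4]
  ring

theorem one_sub_ne {u : ℂ} (hu : ‖u‖ < 1) : 1 - u ≠ 0 := by
  intro h
  have : u = 1 := by linear_combination -h
  rw [this, norm_one] at hu
  exact lt_irrefl _ hu

theorem C0_den_ne {u : ℂ} (hu : ‖u‖ < 1) : C0 1 0 * u + C0 1 1 ≠ 0 := by
  rw [C0_den]
  exact div_ne_zero (one_sub_ne hu) one_I_ne

theorem C0_mb (u : ℂ) : mb C0 u = Complex.I * (1 + u) / (1 - u) := by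
  have h := one_I_ne
  unfold mb
  rw [C0_den]
  obtain ⟨h1, h2, -, -⟩ := C0_e
  rw [h1, h2]
  rw [show Complex.I / (1 + Complex.I) * u + Complex.I / (1 + Complex.I) =
    (Complex.I * (1 + u)) / (1 + Complex.I) by ring, div_div_div_cancel_right₀ h]

theorem C0_im {u : ℂ} (hu : ‖u‖ < 1) : (mb C0 u).im = (1 - ‖u‖ ^ 2) / ‖1 - u‖ ^ 2 := by
  rw [C0_mb, Complex.div_im, Complex.sq_norm, Complex.sq_norm, Complex.normSq_apply u]
  have h1 : Complex.normSq (1 - u) ≠ 0 := fun h => one_sub_ne hu (Complex.normSq_eq_zero.1 h)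
  simp only [Complex.mul_re, Complex.mul_im, Complex.I_re, Complex.I_im, Complex.add_re,
    Complex.add_im, Complex.one_re, Complex.one_im, Complex.sub_re, Complex.sub_im]
  field_simp
  ring

theorem C0_inj : InjOn (mb C0) (Metric.ball 0 1) := by
  intro u hu v hv h
  rw [Metric.mem_ball, dist_zero_right] at hu hv
  rw [C0_mb, C0_mb, div_eq_div_iff (one_sub_ne hu) (one_sub_ne hv)] at h
  have h2 : 2 * Complex.I * (u - v) = 0 := by linear_combination h
  have h3 : u - v = 0 := by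
    rcases mul_eq_zero.1 h2 with h4 | h4
    · exfalso
      exact (mul_ne_zero two_ne_zero Complex.I_ne_zero) h4
    · exact h4
  exact sub_eq_zero.1 h3

theorem C0_img : mb C0 '' (Metric.ball 0 1) = HP := by
  ext w
  constructor
  · rintro ⟨u, hu, rfl⟩
    rw [Metric.mem_ball, dist_zero_right] at hu
    show 0 < (mb C0 u).im
    rw [C0_im hu]
    have h1 : 0 < ‖1 - u‖ := norm_pos_iff.2 (one_sub_ne hu)
    have h2 : 0 < 1 - ‖u‖ ^ 2 := by nlinarith [norm_nonneg u]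
    positivity
  · intro hw
    have hw' : 0 < w.im := hw
    have h1 : w + Complex.I ≠ 0 := by
      intro h
      have := congrArg Complex.im h
      simp at this
      linarith
    refine ⟨(w - Complex.I) / (w + Complex.I), ?_, ?_⟩
    · rw [Metric.mem_ball, dist_zero_right, norm_div, div_lt_one (norm_pos_iff.2 h1)]
      have h2 : ‖w - Complex.I‖ ^ 2 < ‖w + Complex.I‖ ^ 2 := by
        rw [Complex.sq_norm, Complex.sq_norm, Complex.normSq_apply, Complex.normSq_apply]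
        simp only [Complex.sub_re, Complex.sub_im, Complex.add_re, Complex.add_im, Complex.I_re,
          Complex.I_im]
        nlinarith
      exact lt_of_pow_lt_pow_left₀ 2 (norm_nonneg _) h2
    · rw [C0_mb]
      have h3 : 1 - (w - Complex.I) / (w + Complex.I) = 2 * Complex.I / (w + Complex.I) := by
        field_simp
        ring
      have h4 : Complex.I * (1 + (w - Complex.I) / (w + Complex.I)) =
          2 * Complex.I * w / (w + Complex.I) := by
        field_simp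
        ring
      rw [h3, h4, div_div_div_cancel_right₀ h1]
      have h5 : (2 * Complex.I) ≠ 0 := mul_ne_zero two_ne_zero Complex.I_ne_zero
      rw [mul_div_cancel_left₀ _ h5]

/-- conjugation by the Cayley matrix makes `SU(1,1)` real -/
theorem C0_real {A : SL} (hA : IsSU A) : IsR (C0 * A * C0⁻¹) := by
  obtain ⟨h1, h2⟩ := hA
  have h1' : A 1 1 = conj (A 0 0) := h1
  have h2' : A 1 0 = conj (A 0 1) := h2
  obtain ⟨c1, c2, c3, c4⟩ := C0_e
  obtain ⟨i1, i2, i3, i4⟩ := c_inv C0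
  have hs : (1 / (1 + Complex.I)) * (1 / (1 + Complex.I)) = -Complex.I / 2 := by
    have h := one_I_ne
    have h' := one_I_sq
    rw [div_mul_div_comm, one_mul, ← sq, h']
    have hI := Complex.I_ne_zero
    field_simp
    linear_combination Complex.I_sq
  set a := A 0 0 with ha
  set b := A 0 1 with hb
  have k1 : (C0 * A * C0⁻¹) 0 0 = (((a.re + b.re : ℝ)) : ℂ) := by
    rw [c_mul, c_mul, c_mul, i1, i3, c1, c2, c3, c4, h1', h2', ← ha, ← hb]
    have e : (Complex.I / (1 + Complex.I) * a + Complex.I / (1 + Complex.I) * conj b) *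
        (1 / (1 + Complex.I)) + (Complex.I / (1 + Complex.I) * b + Complex.I / (1 + Complex.I) * conj a) *
        -(-1 / (1 + Complex.I)) = ((1 / (1 + Complex.I)) * (1 / (1 + Complex.I))) *
        (Complex.I * (a + conj a + b + conj b)) := by ring
    rw [e, hs]
    apply Complex.ext <;> (simp [Complex.mul_re, Complex.mul_im]; try ring)
  have k2 : (C0 * A * C0⁻¹) 0 1 = (((a.im - b.im : ℝ)) : ℂ) := by
    rw [c_mul, c_mul, c_mul, i2, i4, c1, c2, h1', h2', ← ha, ← hb]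
    have e : (Complex.I / (1 + Complex.I) * a + Complex.I / (1 + Complex.I) * conj b) *
        -(Complex.I / (1 + Complex.I)) + (Complex.I / (1 + Complex.I) * b +
        Complex.I / (1 + Complex.I) * conj a) * (Complex.I / (1 + Complex.I)) =
        ((1 / (1 + Complex.I)) * (1 / (1 + Complex.I))) *
        (Complex.I * Complex.I * (conj a - a + b - conj b)) := by ring
    rw [e, hs]
    apply Complex.ext <;> (simp [Complex.mul_re, Complex.mul_im]; try ring)
  have k3 : (C0 * A * C0⁻¹) 1 0 = (((-a.im - b.im : ℝ)) : ℂ) := by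
    rw [c_mul, c_mul, c_mul, i1, i3, c3, c4, h1', h2', ← ha, ← hb]
    have e : (-1 / (1 + Complex.I) * a + 1 / (1 + Complex.I) * conj b) *
        (1 / (1 + Complex.I)) + (-1 / (1 + Complex.I) * b + 1 / (1 + Complex.I) * conj a) *
        -(-1 / (1 + Complex.I)) = ((1 / (1 + Complex.I)) * (1 / (1 + Complex.I))) *
        (conj a - a + conj b - b) := by ring
    rw [e, hs]
    apply Complex.ext <;> (simp [Complex.mul_re, Complex.mul_im]; try ring)
  have k4 : (C0 * A * C0⁻¹) 1 1 = (((a.re - b.re : ℝ)) : ℂ) := by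
    rw [c_mul, c_mul, c_mul, i2, i4, c1, c2, c3, c4, h1', h2', ← ha, ← hb]
    have e : (-1 / (1 + Complex.I) * a + 1 / (1 + Complex.I) * conj b) *
        -(Complex.I / (1 + Complex.I)) + (-1 / (1 + Complex.I) * b +
        1 / (1 + Complex.I) * conj a) * (Complex.I / (1 + Complex.I)) =
        ((1 / (1 + Complex.I)) * (1 / (1 + Complex.I))) *
        (Complex.I * (a + conj a - b - conj b)) := by ring
    rw [e, hs]
    apply Complex.ext <;> (simp [Complex.mul_re, Complex.mul_im]; try ring)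
  intro i j
  fin_cases i <;> fin_cases j
  · show ((C0 * A * C0⁻¹) 0 0).im = 0
    rw [k1, Complex.ofReal_im]
  · show ((C0 * A * C0⁻¹) 0 1).im = 0
    rw [k2, Complex.ofReal_im]
  · show ((C0 * A * C0⁻¹) 1 0).im = 0
    rw [k3, Complex.ofReal_im]
  · show ((C0 * A * C0⁻¹) 1 1).im = 0
    rw [k4, Complex.ofReal_im]

end Pool.Agent.Helper44.QA.CFG
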