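import Pool.Agent.Helper86.QA.St2

/-!
# Project QD (MP_d112a4_gt), part A, module AWB: the density `aw B`
-/

set_option autoImplicit false

open MeasureTheory Matrix Set Topology
open scoped ENNReal ComplexConjugate

namespace Pool.Agent.Helper44.QA

open Pool.Agent.Helper86.QA

private theorem awb_meas (B : Set ℂ) : Measurable (aw B) := by
  have h : Measurable fun p : ℂ × ℂ => ENNReal.ofReal (1 / ‖p.1 - p.2‖ ^ 4) := by fun_prop
  exact h.lintegral_prod_right'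

private theorem awb_real (B : Set ℂ) (ξ : ℂ) : (aw B ξ).toReal = ∫ η in B, 1 / ‖ξ - η‖ ^ 4 := by
  unfold aw
  rw [integral_eq_lintegral_of_nonneg_ae]
  · exact Filter.Eventually.of_forall fun η => by positivity
  · have h : Measurable fun η : ℂ => 1 / ‖ξ - η‖ ^ 4 := by fun_prop
    exact h.aestronglyMeasurable

/-- the dominating function -/
private theorem awb_int (ξ : ℂ) (C : ℝ) : Integrable fun η : ℂ => C * (1 + ‖η - ξ‖) ^ (-(4 : ℝ)) := by
  have h : Integrable (fun η : ℂ => (1 + ‖η‖) ^ (-(4 : ℝ))) (volume : Measure ℂ) := by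
    refine integrable_one_add_norm ?_
    rw [Complex.finrank_real_complex]
    norm_num
  exact (h.comp_sub_right ξ).const_mul C

private theorem awb_bound {A B : Set ℂ} (hA : IsOpen A) (hd : Disjoint A B) {ξ : ℂ} (hξ : ξ ∈ A) :
    ∃ r > 0, ∃ C : ℝ, Metric.ball ξ r ⊆ A ∧ ∀ ξ' ∈ Metric.ball ξ r, ∀ η ∈ B,
      1 / ‖ξ' - η‖ ^ 4 ≤ C * (1 + ‖η - ξ‖) ^ (-(4 : ℝ)) := by
  obtain ⟨R, hR, hsub⟩ := Metric.isOpen_iff.1 hA ξ hξ
  refine ⟨R / 2, half_pos hR, (2 * (1 + 1 / R)) ^ 4, (Metric.ball_subset_ball (half_le_self hR.le)).trans hsub, ?_⟩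
  intro ξ' hξ' η hη
  have h1 : R ≤ ‖η - ξ‖ := by
    by_contra hlt
    push Not at hlt
    have : η ∈ A := hsub (by rw [Metric.mem_ball, dist_eq_norm]; exact hlt)
    exact Set.disjoint_left.1 hd this hη
  have h2 : ‖ξ' - ξ‖ < R / 2 := by
    rw [← dist_eq_norm]
    exact hξ'
  have h3 : ‖η - ξ‖ / 2 ≤ ‖ξ' - η‖ := by
    have e : η - ξ = (ξ' - ξ) - (ξ' - η) := by ring
    have : ‖η - ξ‖ ≤ ‖ξ' - ξ‖ + ‖ξ' - η‖ := by
      rw [e]
      exact norm_sub_le _ _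
    linarith
  have hpos : 0 < ‖η - ξ‖ := lt_of_lt_of_le hR h1
  have hpos' : 0 < ‖ξ' - η‖ := lt_of_lt_of_le (half_pos hpos) h3
  have h4 : 1 + ‖η - ξ‖ ≤ (1 + 1 / R) * ‖η - ξ‖ := by
    have : 1 ≤ 1 / R * ‖η - ξ‖ := by
      rw [one_div, ← div_eq_inv_mul, one_le_div hR]
      exact h1
    linarith
  have h5 : 1 + ‖η - ξ‖ ≤ 2 * (1 + 1 / R) * ‖ξ' - η‖ := by
    have h6 : 0 ≤ 1 + 1 / R := by positivity
    nlinarith
  have hp1 : 0 < 1 + ‖η - ξ‖ := by linarith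
  have e4 : (1 + ‖η - ξ‖) ^ (-(4 : ℝ)) = 1 / (1 + ‖η - ξ‖) ^ 4 := by
    rw [Real.rpow_neg hp1.le, one_div]
    congr 1
    exact_mod_cast Real.rpow_natCast _ 4
  rw [e4, mul_one_div, div_le_div_iff₀ (by positivity) (by positivity), one_mul, ← mul_pow]
  exact pow_le_pow_left₀ hp1.le h5 4

private theorem awb_integrable {A B : Set ℂ} (hA : IsOpen A) (hB : IsOpen B) (hd : Disjoint A B) {ξ : ℂ}
    (hξ : ξ ∈ A) : Integrable (fun η : ℂ => 1 / ‖ξ - η‖ ^ 4) (volume.restrict B) := by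
  obtain ⟨r, hr, C, _, hb⟩ := awb_bound hA hd hξ
  refine (awb_int ξ C).restrict.mono' ?_ ?_
  · have h : Measurable fun η : ℂ => 1 / ‖ξ - η‖ ^ 4 := by fun_prop
    exact h.aestronglyMeasurable
  · filter_upwards [ae_restrict_mem hB.measurableSet] with η hη
    rw [Real.norm_eq_abs, abs_of_nonneg (by positivity)]
    exact hb ξ (Metric.mem_ball_self hr) η hη

private theorem awb_cont {A B : Set ℂ} (hA : IsOpen A) (hB : IsOpen B) (hd : Disjoint A B) :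
    ContinuousOn (fun ξ => (aw B ξ).toReal) A := by
  intro ξ hξ
  refine ContinuousAt.continuousWithinAt ?_
  simp only [awb_real]
  obtain ⟨r, hr, C, hrA, hb⟩ := awb_bound hA hd hξ
  have hnhds : Metric.ball ξ r ∈ 𝓝 ξ := Metric.ball_mem_nhds ξ hr
  refine continuousAt_of_dominated (bound := fun η : ℂ => C * (1 + ‖η - ξ‖) ^ (-(4 : ℝ))) ?_ ?_ ?_ ?_
  · refine Filter.Eventually.of_forall fun ξ' => ?_
    have h : Measurable fun η : ℂ => 1 / ‖ξ' - η‖ ^ 4 := by fun_prop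
    exact h.aestronglyMeasurable
  · filter_upwards [hnhds] with ξ' hξ'
    filter_upwards [ae_restrict_mem hB.measurableSet] with η hη
    rw [Real.norm_eq_abs, abs_of_nonneg (by positivity)]
    exact hb ξ' hξ' η hη
  · exact (awb_int ξ C).restrict
  · filter_upwards [ae_restrict_mem hB.measurableSet] with η hη
    have hne : ξ ≠ η := by
      rintro rfl
      exact Set.disjoint_left.1 hd hξ hη
    have h0 : ‖ξ - η‖ ^ 4 ≠ 0 := pow_ne_zero 4 (norm_ne_zero_iff.2 (sub_ne_zero.2 hne))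
    exact ContinuousAt.div continuousAt_const (by fun_prop) h0

private theorem awb_pos {A B : Set ℂ} (hA : IsOpen A) (hB : IsOpen B) (hnB : B.Nonempty) (hd : Disjoint A B)
    {ξ : ℂ} (hξ : ξ ∈ A) : aw B ξ ≠ ∞ ∧ 0 < (aw B ξ).toReal := by
  have hfin : aw B ξ ≠ ∞ := (awb_integrable hA hB hd hξ).lintegral_lt_top.ne
  refine ⟨hfin, ENNReal.toReal_pos ?_ hfin⟩
  intro h0
  unfold aw at h0
  have hm : Measurable fun η : ℂ => ENNReal.ofReal (1 / ‖ξ - η‖ ^ 4) := by fun_prop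
  rw [lintegral_eq_zero_iff hm] at h0
  have hF : ∀ᵐ η ∂(volume.restrict B : Measure ℂ), False := by
    filter_upwards [h0, ae_restrict_mem hB.measurableSet] with η h1 h2
    have hne : ξ ≠ η := by
      rintro rfl
      exact Set.disjoint_left.1 hd hξ h2
    have hp : 0 < 1 / ‖ξ - η‖ ^ 4 :=
      one_div_pos.2 (pow_pos (norm_pos_iff.2 (sub_ne_zero.2 hne)) 4)
    have h3 : ENNReal.ofReal (1 / ‖ξ - η‖ ^ 4) = 0 := h1
    rw [ENNReal.ofReal_eq_zero] at h3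
    linarith
  rw [Filter.eventually_false_iff_eq_bot, ae_eq_bot, Measure.restrict_eq_zero] at hF
  exact (hB.measure_pos volume hnB).ne' hF

private theorem awb_null (g : SL) : volume {η : ℂ | g 1 0 * η + g 1 1 = 0} = 0 := by
  refine Set.Subsingleton.measure_zero ?_ _
  intro η hη η' hη'
  have h1 : g 1 0 * η + g 1 1 = 0 := hη
  have h2 : g 1 0 * η' + g 1 1 = 0 := hη'
  by_cases hc : g 1 0 = 0
  · exfalso
    rw [hc, zero_mul, zero_add] at h1
    have hdet := g.det_coe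
    rw [Matrix.det_fin_two, hc, h1] at hdet
    simp at hdet
  · have h3 : g 1 0 * (η - η') = 0 := by linear_combination h1 - h2
    exact sub_eq_zero.1 ((mul_eq_zero.1 h3).resolve_left hc)

/-- AWB (the density `aw B`) -/
theorem hAWB (hCHV : StCHV) : StAWB := by
  intro Γ _ ρ A B K
  refine ⟨awb_meas B, awb_cont K.opA K.opB K.dis, fun ξ hξ => awb_pos K.opA K.opB K.neB K.dis hξ, ?_⟩
  intro γ ξ hξ
  obtain ⟨c1, c2, c3, c4, _⟩ := hCHV
  obtain ⟨hξ0, _⟩ := K.mpA γ ξ hξ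
  have hBm := K.opB.measurableSet
  -- membership
  have hmem : ∀ η : ℂ, ρ γ 1 0 * η + ρ γ 1 1 ≠ 0 → (mb (ρ γ) η ∈ B ↔ η ∈ B) := by
    intro η hη
    constructor
    · intro h
      have h1 := (K.mpB γ⁻¹ _ h).2
      have h2 := (c2 (ρ γ⁻¹) (ρ γ) η hη).1
      rw [← map_mul, inv_mul_cancel, map_one, c4] at h2
      rw [← h2] at h1
      exact h1
    · intro h
      exact (K.mpB γ η h).2
  have hm : Measurable fun η : ℂ => ENNReal.ofReal (1 / ‖mb (ρ γ) ξ - η‖ ^ 4) := by fun_prop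
  have hm2 : Measurable fun η : ℂ => ENNReal.ofReal (1 / ‖ξ - η‖ ^ 4) := by fun_prop
  have e1 : aw B (mb (ρ γ) ξ) =
      ∫⁻ η, B.indicator (fun η : ℂ => ENNReal.ofReal (1 / ‖mb (ρ γ) ξ - η‖ ^ 4)) η :=
    (lintegral_indicator hBm _).symm
  have e2 : aw B ξ = ∫⁻ η, B.indicator (fun η : ℂ => ENNReal.ofReal (1 / ‖ξ - η‖ ^ 4)) η :=
    (lintegral_indicator hBm _).symm
  rw [e1, e2, ← c1 (ρ γ) _ (hm.indicator hBm), ← lintegral_mul_const _ (hm2.indicator hBm)]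
  refine lintegral_congr_ae ?_
  have hae : ∀ᵐ η : ℂ ∂volume, ρ γ 1 0 * η + ρ γ 1 1 ≠ 0 := by
    rw [ae_iff]
    simpa using awb_null (ρ γ)
  filter_upwards [hae] with η hη
  by_cases hηB : η ∈ B
  · have h1 : mb (ρ γ) η ∈ B := (hmem η hη).2 hηB
    rw [Set.indicator_of_mem h1, Set.indicator_of_mem hηB, ← ENNReal.ofReal_mul (by positivity),
      ← ENNReal.ofReal_mul (by positivity)]
    congr 1
    rw [c3 (ρ γ) ξ η hξ0 hη, norm_div, norm_mul]
    have hne : ξ ≠ η := by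
      rintro rfl
      exact Set.disjoint_left.1 K.dis hξ hηB
    have n1 : ‖ξ - η‖ ≠ 0 := norm_ne_zero_iff.2 (sub_ne_zero.2 hne)
    have n2 : ‖ρ γ 1 0 * ξ + ρ γ 1 1‖ ≠ 0 := norm_ne_zero_iff.2 hξ0
    have n3 : ‖ρ γ 1 0 * η + ρ γ 1 1‖ ≠ 0 := norm_ne_zero_iff.2 hη
    generalize ‖ξ - η‖ = D at n1 ⊢
    generalize ‖ρ γ 1 0 * ξ + ρ γ 1 1‖ = P at n2 ⊢
    generalize ‖ρ γ 1 0 * η + ρ γ 1 1‖ = Q at n3 ⊢
    field_simp
  · have h1 : mb (ρ γ) η ∉ B := fun h => hηB ((hmem η hη).1 h)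
    rw [Set.indicator_of_notMem h1, Set.indicator_of_notMem hηB, zero_mul, zero_mul]

end Pool.Agent.Helper44.QA
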